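import Pool.Agent.H9.Lap.Targets

/-!
Modules LCX and SPL of the Laplacian index project (MP_c4ad93_co).
-/

namespace Pool.Agent.H19.Lap

open Finset Classical Pool.Agent.H9.Lap

theorem lcx : T_LCX := by
  intro V _ F f t lam a b hC hK hQ h1 h2 k hk
  have hKa : ∀ {u}, u ∉ nb F a ∩ nb F b → F.Adj a u → u ∉ nb F b := by
    intro u hu ha hb
    exact hu (Finset.mem_inter.2 ⟨mem_nb.2 ha, hb⟩)
  have hKb : ∀ {u}, u ∉ nb F a ∩ nb F b → F.Adj b u → u ∉ nb F a := by
    intro u hu hb ha
    exact hu (Finset.mem_inter.2 ⟨ha, mem_nb.2 hb⟩)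
  refine ⟨?_, ?_, ?_, ?_, ?_, ?_⟩
  · intro x hx
    have hxK : x ∉ nb F a ∩ nb F b := Finset.disjoint_left.1 (hQ.out k hk) hx
    refine Finset.mem_filter.2 ⟨Finset.mem_univ _, hxK, ?_⟩
    intro k' hk' hne
    have hx' : x ∉ nn F k' := Finset.disjoint_left.1 (hQ.disj k hk k' hk' (Ne.symm hne)) hx
    by_contra hadj
    apply hx'
    refine mem_nn.2 ⟨?_, ?_⟩
    · rintro rfl
      exact hxK hk'
    · intro h
      exact hadj h.symm
  · obtain ⟨x, hx1, hx2⟩ := hC.nu k
    exact ⟨x, mem_nn.2 ⟨hx1, hx2⟩⟩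
  · linarith
  · intro x hx
    obtain ⟨u, hu, hux, hua⟩ := hQ.q k hk x hx a
    refine ⟨u, hu, hux.symm, ?_⟩
    have huK := (Finset.mem_filter.1 hu).2.1
    have := hK.na u (mem_nb.2 hua.symm) (hKa huK hua.symm)
    linarith
  · intro x hx
    obtain ⟨u, hu, hux, hub⟩ := hQ.q k hk x hx b
    refine ⟨u, hu, hux.symm, ?_⟩
    have huK := (Finset.mem_filter.1 hu).2.1
    have := hK.nB u (mem_nb.2 hub.symm) (hKb huK hub.symm)
    linarith
  · intro x hx v _
    exact hQ.q k hk x hx v

theorem sum_ite_le_one {V : Type} (S : Finset V) (c : V → Prop) [DecidablePred c] (Q : Prop)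
    [Decidable Q] (x : ℝ) (hx : 0 ≤ x)
    (h1 : ∀ k ∈ S, ∀ k' ∈ S, c k → c k' → k = k') (h2 : ∀ k ∈ S, c k → Q) :
    ∑ k ∈ S, (if c k then x else 0) ≤ if Q then x else 0 := by
  by_cases h : ∃ k ∈ S, c k
  · obtain ⟨k, hk, hc⟩ := h
    rw [Finset.sum_eq_single k, if_pos hc, if_pos (h2 k hk hc)]
    · intro b hb hne
      rw [if_neg]
      intro hcb
      exact hne (h1 b hb k hk hcb hc)
    · intro h
      exact absurd hk h
  · push Not at h
    rw [Finset.sum_eq_zero]
    · split_ifs
      · exact hx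
      · exact le_rfl
    · intro k hk
      rw [if_neg (h k hk)]

theorem EN_sum {V : Type} [Fintype V] (F : SimpleGraph V) (f : V → ℝ) (S : Finset V)
    (P : V → V → V → Prop) : ∑ k ∈ S, EN F f (P k)
      = (1 / 2) * ∑ u, ∑ v, ∑ k ∈ S, if F.Adj u v ∧ P k u v then (f u - f v) ^ 2 else 0 := by
  simp only [EN]
  rw [← Finset.mul_sum, Finset.sum_comm]
  congr 1
  refine Finset.sum_congr rfl fun u _ => ?_
  rw [Finset.sum_comm]

theorem px_unique {V : Type} [Fintype V] (F : SimpleGraph V) (K : Finset V) {k k' u v : V}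
    (hk : k ∈ K) (h : PX (WW F K k) (nn F k) u v) (h' : PW (WW F K k') u v) : k = k' := by
  by_contra hne
  obtain ⟨_, _, h3⟩ := h
  rcases h3 with h3 | h3
  · have h4 := (Finset.mem_filter.1 h'.1).2.2 k hk hne
    exact (mem_nn.1 h3).2 h4.symm
  · have h4 := (Finset.mem_filter.1 h'.2).2.2 k hk hne
    exact (mem_nn.1 h3).2 h4.symm

theorem pw_pr {V : Type} [Fintype V] (F : SimpleGraph V) (K : Finset V) {k u v : V}
    (h : PW (WW F K k) u v) : PR K u v :=
  ⟨(Finset.mem_filter.1 h.1).2.1, (Finset.mem_filter.1 h.2).2.1⟩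

theorem px_pw {V : Type} {W X : Finset V} {u v : V} (h : PX W X u v) : PW W u v :=
  ⟨h.1, h.2.1⟩

theorem spl : T_SPL := by
  intro V _ F f K _
  constructor
  · rw [EN_sum F f K (fun k => PX (WW F K k) (nn F k)), EN]
    refine mul_le_mul_of_nonneg_left ?_ (by norm_num)
    refine Finset.sum_le_sum fun u _ => Finset.sum_le_sum fun v _ => ?_
    refine sum_ite_le_one K (fun k => F.Adj u v ∧ PX (WW F K k) (nn F k) u v)
      (F.Adj u v ∧ PR K u v) _ (sq_nonneg _) ?_ ?_
    · intro k hk k' _ hc hc'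
      exact px_unique F K hk hc.2 (px_pw hc'.2)
    · intro k _ hc
      exact ⟨hc.1, pw_pr F K (px_pw hc.2)⟩
  · intro k0 hk0
    have key : ∑ k ∈ K, EN F f (if k = k0 then PW (WW F K k0) else PX (WW F K k) (nn F k))
        ≤ EN F f (PR K) := by
      rw [EN_sum F f K (fun k => if k = k0 then PW (WW F K k0) else PX (WW F K k) (nn F k)), EN]
      refine mul_le_mul_of_nonneg_left ?_ (by norm_num)
      refine Finset.sum_le_sum fun u _ => Finset.sum_le_sum fun v _ => ?_
      have hpw : ∀ k, (if k = k0 then PW (WW F K k0) else PX (WW F K k) (nn F k)) u v →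
          PW (WW F K k) u v := by
        intro k h
        by_cases hkk : k = k0
        · subst hkk
          simpa using h
        · rw [if_neg hkk] at h
          exact px_pw h
      refine sum_ite_le_one K
        (fun k => F.Adj u v ∧ (if k = k0 then PW (WW F K k0) else PX (WW F K k) (nn F k)) u v)
        (F.Adj u v ∧ PR K u v) _ (sq_nonneg _) ?_ ?_
      · intro k hk k' hk' hc hc'
        by_cases hkk : k = k0
        · by_cases hkk' : k' = k0
          · rw [hkk, hkk']
          · have h2 := hc'.2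
            rw [if_neg hkk'] at h2
            exact (px_unique F K hk' h2 (hpw k hc.2)).symm
        · have h2 := hc.2
          rw [if_neg hkk] at h2
          exact px_unique F K hk h2 (hpw k' hc'.2)
      · intro k _ hc
        exact ⟨hc.1, pw_pr F K (hpw k hc.2)⟩
    refine le_trans (le_of_eq ?_) key
    rw [← Finset.add_sum_erase K _ hk0]
    congr 1
    · simp
    · refine Finset.sum_congr rfl fun k hk => ?_
      rw [if_neg (Finset.ne_of_mem_erase hk)]

end Pool.Agent.H19.Lap
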