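import Pool.Agent.H9.Lap.TargetsG

/-!
Module ROT of the Laplacian index project (MP_c4ad93_co).
-/

namespace Pool.Agent.H19.Lap

open Pool.Agent.H9.Lap

theorem rot : T_ROT := by
  intro n g hg hn
  have hn' : 1350 ≤ n := by nlinarith
  have hng : 450 * g ≤ n := by nlinarith
  set s := Real.sqrt ((n - g + 4) ^ 2 - 8 * n) with hs
  have hd : 0 < (n - g + 4) ^ 2 - 8 * n := by
    have h1 : n / 2 ≤ n - g + 4 := by linarith
    have h2 : n / 2 * (n / 2) ≤ (n - g + 4) * (n - g + 4) :=
      mul_le_mul h1 h1 (by linarith) (by linarith)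
    nlinarith
  have hs2 : s ^ 2 = (n - g + 4) ^ 2 - 8 * n := Real.sq_sqrt hd.le
  have hs0 : 0 < s := Real.sqrt_pos.2 hd
  have hmu : muS n g = ((n - g + 4) + s) / 2 := by
    simp only [muS, hs]
  have hq : (muS n g) ^ 2 - (n - g + 4) * muS n g + 2 * n = 0 := by
    rw [hmu]; nlinarith
  have hlow : n - g - 2 < s := by
    by_contra h
    push Not at h
    nlinarith
  have hupp : s < n + g - 4 := by
    by_contra h
    push Not at h
    nlinarith
  refine ⟨hq, ?_, ?_, ?_, ?_⟩
  · rw [hmu]; linarith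
  · rw [hmu]; linarith
  · intro x hx
    rw [hmu] at hx hq
    nlinarith
  · intro x hx he
    rw [hmu] at hx hq ⊢
    by_contra hne
    have hlt : ((n - g + 4) + s) / 2 < x := lt_of_le_of_ne hx (Ne.symm hne)
    nlinarith [mul_pos (sub_pos.2 hlt) (show (0:ℝ) < x - ((n - g + 4) - s) / 2 by linarith)]

end Pool.Agent.H19.Lap
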